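import Pool.Agent.H27.CAL.Stmts2

/-! Project CAL, module AVG2 -/

open scoped BigOperators ENNReal Topology
open Filter

namespace CAL

variable {𝕜 : Type*} [RCLike 𝕜] {A : Type*} [PartialOrder A] {Y : Type*} [NormedAddCommGroup Y]
  [NormedSpace 𝕜 Y] {τ : TreeLev A}

theorem cal_avg2 (D : Dat 𝕜 Y τ) (hran : RANStmt D) : AVG2Stmt D := by
  classical
  intro Ch F w R j C μ I x s p l hS a J hJ
  obtain ⟨-, -, -, -, -, -, -, -, hran9⟩ := hran
  set G : Finset ℕ := (J.filter (fun k => D.nd a (x k) ≠ 0)).image p with hG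
  have hlt : ∀ k ∈ I, ∀ k' ∈ I, k < k' → p k < p k' := fun k hk k' hk' h =>
    (hS.ps k hk k' hk' h).trans_lt (hS.sp k' hk')
  have hchain : τ.Chain G := by
    refine Or.inr ⟨a, fun t ht => ?_⟩
    rw [hG, Finset.mem_image] at ht
    obtain ⟨k, hk, rfl⟩ := ht
    rw [Finset.mem_filter] at hk
    obtain ⟨b, hb1, hb2, hb3⟩ := hran9 (s k) (p k) (x k) a (hS.ran k (hJ hk.1)) hk.2
    refine ⟨b, hb1, hb3, fun t' ht' htt => ?_⟩
    rw [hG, Finset.mem_image] at ht'
    obtain ⟨k', hk', rfl⟩ := ht'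
    rw [Finset.mem_filter] at hk'
    have h1 : k' < k := by
      by_contra h2
      rcases eq_or_lt_of_le (not_lt.1 h2) with h3 | h3
      · rw [h3] at htt
        exact lt_irrefl _ htt
      · exact absurd htt (hlt k (hJ hk.1) k' (hJ hk'.1) h3).le.not_gt
    exact (hS.ps k' (hJ hk'.1) k (hJ hk.1) h1).trans_lt hb2
  refine ⟨_, WW.chain G (R.chain_le G hchain), ?_, ?_⟩
  · intro r hr
    have hrG : r ∈ G := by
      by_contra h
      exact hr (if_neg h)
    rw [hG, Finset.mem_image] at hrG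
    obtain ⟨k, hk, rfl⟩ := hrG
    exact ⟨k, (Finset.mem_filter.1 hk).1, rfl⟩
  · refine (norm_sum_le _ _).trans ?_
    rw [Finset.mul_sum]
    apply Finset.sum_le_sum
    intro k hk
    have h2 := hS.l0 k (hJ hk)
    rw [norm_smul, RCLike.norm_ofReal, abs_of_nonneg h2]
    by_cases h0 : D.nd a (x k) = 0
    · rw [h0, norm_zero, mul_zero]
      have : (0 : ℝ) ≤ (if p k ∈ G then 1 else 0) := by split_ifs <;> norm_num
      have := hS.C0
      positivity
    · have hkG : p k ∈ G := Finset.mem_image_of_mem _ (Finset.mem_filter.2 ⟨hk, h0⟩)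
      rw [if_pos hkG, mul_one, mul_comm C]
      exact mul_le_mul_of_nonneg_left ((D.norm_nd_le a _).trans (hS.nm k (hJ hk))) h2

end CAL
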