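import Pool.Agent.H27.CAL.Stmts2

/-! Project CAL, module AVGD -/

open scoped BigOperators ENNReal Topology
open Filter

namespace CAL

variable {𝕜 : Type*} [RCLike 𝕜] {A : Type*} [PartialOrder A] {Y : Type*} [NormedAddCommGroup Y]
  [NormedSpace 𝕜 Y] {τ : TreeLev A}

theorem avgd_wt (D : Dat 𝕜 Y τ) {ζ γ : ℕ} (h : D.Anc ζ γ) : D.wt ζ = D.wt γ := by
  induction h with
  | refl => rfl
  | step h1 _ ih => rw [ih, D.pred_wt _ _ h1]

theorem cal_avgd (D : Dat 𝕜 Y τ) (hcomb : COMBStmt D) (h1 : AVG1Stmt D) : AVGDStmt D := by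
  classical
  intro Ch F w R j C I x s p l hS href γ hO hγ hno J hJ
  have hC := hS.C0
  have hjp := mm_inv_pos j
  have hWp := mm_inv_pos (D.wt γ)
  set B : ℝ := C * ((mm j)⁻¹ * (mm (D.wt γ))⁻¹ ^ 2 + (mm j)⁻¹ ^ 2) with hBdef
  have hB : 0 ≤ B := by positivity
  have key : ∀ ζ, D.Anc ζ γ → ∀ J' ⊆ J, ∃ g, WW Ch F.Fam j g ∧
      (∀ r, g r ≠ 0 → ∃ k ∈ J', r = p k) ∧
      ‖D.evX (D.b ζ) (∑ k ∈ J', (l k : 𝕜) • x k)‖ ≤
        C * ∑ k ∈ J', l k * g (p k) + B * ∑ k ∈ J', l k := by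
    intro ζ hζ J' hJ'
    have hwt := avgd_wt D hζ
    have hθj := hno ζ hζ
    have hbζ := R.odd_b ζ (by rw [hwt]; exact hO)
    set θ := R.th ζ with hθ
    have hev : ∀ u, D.evX (D.b ζ) u = D.co θ u := by
      intro u
      rw [D.evX_apply, hbζ, ev_single, D.co_apply]
    have hlt : D.wt γ < D.wt θ := by
      rcases hp : D.pred ζ with _ | ξ
      · have h2 := (R.odd_none ζ (by rw [hwt]; exact hO) hp).2
        rwa [hwt] at h2
      · have h2 := R.odd_some ζ ξ (by rw [hwt]; exact hO) hp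
        have h3 := R.sg_lt ξ
        have h4 := D.wt_le ξ
        have h5 := D.pred_wt ζ ξ hp
        rw [← hθ] at h2
        omega
    have hl0 : ∀ k ∈ J', 0 ≤ l k := fun k hk => hS.l0 k (hJ (hJ' hk))
    have hs0 : 0 ≤ ∑ k ∈ J', l k := Finset.sum_nonneg hl0
    rw [hev, map_sum]
    simp only [map_smul, smul_eq_mul]
    rcases lt_or_gt_of_ne hθj with h2 | h2
    · obtain ⟨g, hg1, hg2, hg3⟩ := h1 F w R j C ((mm j)⁻¹) I x s p l hS θ h2 J' (hJ'.trans hJ)
      refine ⟨g, hg1, hg2, hg3.trans (add_le_add le_rfl ?_)⟩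
      apply mul_le_mul_of_nonneg_right _ hs0
      have h3 := mm_inv_sq hlt
      rw [hBdef]
      have h4 : (mm j)⁻¹ * (mm (D.wt θ))⁻¹ ≤ (mm j)⁻¹ * (mm (D.wt γ))⁻¹ ^ 2 :=
        mul_le_mul_of_nonneg_left h3 hjp.le
      have h5 : (0 : ℝ) ≤ (mm j)⁻¹ ^ 2 := by positivity
      rw [mul_assoc]
      exact mul_le_mul_of_nonneg_left (by linarith) hC
    · rcases J'.eq_empty_or_nonempty with hE | hE
      · refine ⟨_, WW.zero, fun r hr => absurd rfl hr, ?_⟩
        rw [hE]
        simp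
      · obtain ⟨k0, hk0, hb⟩ := href θ h2.le J' (hJ'.trans hJ) hE
        refine ⟨_, WW.single (p k0), ?_, ?_⟩
        · intro r hr
          refine ⟨k0, hk0, ?_⟩
          by_contra h
          exact hr (if_neg h)
        · have e1 : ‖∑ k ∈ J', (l k : 𝕜) * D.co θ (x k)‖ ≤ ∑ k ∈ J', l k * ‖D.co θ (x k)‖ := by
            refine (norm_sum_le _ _).trans_eq ?_
            apply Finset.sum_congr rfl
            intro k hk
            rw [norm_mul, RCLike.norm_ofReal, abs_of_nonneg (hl0 k hk)]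
          refine e1.trans (hb.trans (add_le_add ?_ ?_))
          · apply mul_le_mul_of_nonneg_left _ hC
            have h6 : l k0 = l k0 * (if p k0 = p k0 then (1 : ℝ) else 0) := by simp
            rw [h6]
            exact Finset.single_le_sum
              (f := fun k => l k * (if p k = p k0 then (1 : ℝ) else 0)) (fun k hk => by
                have := hl0 k hk
                show 0 ≤ l k * (if p k = p k0 then (1 : ℝ) else 0)
                split_ifs <;> simp [this]) hk0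
          · apply mul_le_mul_of_nonneg_right _ hs0
            have h3 := mm_inv_sq h2
            rw [hBdef]
            have h5 : (0 : ℝ) ≤ (mm j)⁻¹ * (mm (D.wt γ))⁻¹ ^ 2 := by positivity
            exact mul_le_mul_of_nonneg_left (by linarith) hC
  obtain ⟨g, hg1, hg2, hg3⟩ := hcomb F w R j C ((mm j)⁻¹) I x s p l hS γ hγ B hB J hJ key
  refine ⟨g, hg1, hg2, hg3.trans_eq ?_⟩
  rw [hBdef]
  ring

end CAL
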