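import Pool.Agent.H27.CAL.Stmts2

/-! Project CAL, module AVGN -/

open scoped BigOperators ENNReal Topology
open Filter

namespace CAL

variable {𝕜 : Type*} [RCLike 𝕜] {A : Type*} [PartialOrder A] {Y : Type*} [NormedAddCommGroup Y]
  [NormedSpace 𝕜 Y] {τ : TreeLev A}

theorem cal_avgn (D : Dat 𝕜 Y τ) (h1 : AVG1Stmt D) (h2 : AVG2Stmt D) : AVGNStmt D := by
  classical
  intro Ch F w R j C μ I x s p l e hS hl he hg
  have hC := hS.C0
  have hmu := hS.mu0
  have hlt : ∀ k ∈ I, ∀ k' ∈ I, k < k' → p k < p k' := fun k hk k' hk' h =>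
    (hS.ps k hk k' hk' h).trans_lt (hS.sp k' hk')
  have hpinj : ∀ k ∈ I, ∀ k' ∈ I, p k = p k' → k = k' := by
    intro k hk k' hk' h
    rcases lt_trichotomy k k' with h1 | h1 | h1
    · exact absurd h (hlt k hk k' hk' h1).ne
    · exact h1
    · exact absurd h (hlt k' hk' k hk h1).ne'
  have hl0 : 0 ≤ ∑ k ∈ I, l k := Finset.sum_nonneg hS.l0
  have hnd : ∀ a, ‖D.nd a (∑ k ∈ I, (l k : 𝕜) • x k)‖ ≤ C * e := by
    intro a
    obtain ⟨g, hg1, -, hg3⟩ := h2 F w R j C μ I x s p l hS a I (Finset.Subset.refl _)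
    rw [map_sum]
    simp only [map_smul]
    exact hg3.trans (mul_le_mul_of_nonneg_left (hg g hg1) hC)
  have hsm : ∀ γ, D.wt γ < j → ‖D.co γ (∑ k ∈ I, (l k : 𝕜) • x k)‖ ≤
      C * (e + μ * (mm (D.wt γ))⁻¹) := by
    intro γ hγ
    obtain ⟨g, hg1, -, hg3⟩ := h1 F w R j C μ I x s p l hS γ hγ I (Finset.Subset.refl _)
    rw [map_sum]
    simp only [map_smul, smul_eq_mul]
    refine hg3.trans ?_
    have e1 := mul_le_mul_of_nonneg_left (hg g hg1) hC
    have e2 : C * μ * (mm (D.wt γ))⁻¹ * ∑ k ∈ I, l k ≤ C * μ * (mm (D.wt γ))⁻¹ * 1 := by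
      have := (mm_inv_pos (D.wt γ)).le
      exact mul_le_mul_of_nonneg_left hl (by positivity)
    calc _ ≤ C * e + C * μ * (mm (D.wt γ))⁻¹ * 1 := add_le_add e1 e2
      _ = _ := by ring
  have hbig : ∀ γ, j ≤ D.wt γ → ‖D.co γ (∑ k ∈ I, (l k : 𝕜) • x k)‖ ≤ C * (e + μ) := by
    intro γ hγ
    rcases I.eq_empty_or_nonempty with hI | hI
    · rw [hI, Finset.sum_empty, map_zero, norm_zero]
      positivity
    · obtain ⟨k0, hk0, hb⟩ := hS.big γ hγ I (Finset.Subset.refl _) hI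
      have e0 : l k0 ≤ e := by
        have h3 := hg _ (WW.single (p k0))
        have h4 : ∑ k ∈ I, l k * (if p k = p k0 then (1 : ℝ) else 0) = l k0 := by
          rw [Finset.sum_eq_single k0]
          · simp
          · intro k hk hkk
            rw [if_neg (fun h => hkk (hpinj k hk k0 hk0 h)), mul_zero]
          · exact fun h => absurd hk0 h
        rwa [h4] at h3
      rw [map_sum]
      refine (norm_sum_le _ _).trans ?_
      have e1 : ∑ k ∈ I, ‖D.co γ ((l k : 𝕜) • x k)‖ = ∑ k ∈ I, l k * ‖D.co γ (x k)‖ := by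
        apply Finset.sum_congr rfl
        intro k hk
        rw [map_smul, smul_eq_mul, norm_mul, RCLike.norm_ofReal, abs_of_nonneg (hS.l0 k hk)]
      rw [e1]
      refine hb.trans ?_
      have e2 := mul_le_mul_of_nonneg_left e0 hC
      have e3 : C * μ * ∑ k ∈ I, l k ≤ C * μ * 1 := mul_le_mul_of_nonneg_left hl (by positivity)
      calc _ ≤ C * e + C * μ * 1 := add_le_add e2 e3
        _ = _ := by ring
  refine ⟨D.norm_X_le (by positivity) (fun a => (hnd a).trans ?_) (fun γ => ?_), hnd, hsm, hbig⟩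
  · exact mul_le_mul_of_nonneg_left (by linarith) hC
  · rcases lt_or_ge (D.wt γ) j with h | h
    · refine (hsm γ h).trans (mul_le_mul_of_nonneg_left ?_ hC)
      have h5 := mm_inv_le (D.wt γ)
      have h6 := (mm_inv_pos (D.wt γ)).le
      nlinarith
    · exact hbig γ h

end CAL
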