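import Pool.Agent.H27.CAL.Stmts2

/-! Project CAL, module COMB -/

open scoped BigOperators ENNReal Topology
open Filter

namespace CAL

variable {𝕜 : Type*} [RCLike 𝕜] {A : Type*} [PartialOrder A] {Y : Type*} [NormedAddCommGroup Y]
  [NormedSpace 𝕜 Y] {τ : TreeLev A}

theorem comb_cnt_mono (P : Finset ℕ) {a b : ℕ} (h : a ≤ b) : cnt P a ≤ cnt P b :=
  Finset.card_le_card (fun x hx => by
    rw [Finset.mem_filter] at hx ⊢
    exact ⟨hx.1, hx.2.trans h⟩)

theorem cal_comb (D : Dat 𝕜 Y τ) (hgap : GAPStmt D) : COMBStmt D := by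
  classical
  intro Ch F w R j C μ I x s p l hS γ hγ B hB J hJ hyp
  set P := D.Lv γ with hP
  have hadm : F.Fam (D.wt γ) P := R.adm γ
  set W := D.wt γ with hW
  have hm0 : 0 < (mm W)⁻¹ := mm_inv_pos _
  -- injectivity of p
  have hlt : ∀ k ∈ I, ∀ k' ∈ I, k < k' → p k < p k' := fun k hk k' hk' h =>
    (hS.ps k hk k' hk' h).trans_lt (hS.sp k' hk')
  have hpinj : ∀ k ∈ I, ∀ k' ∈ I, p k = p k' → k = k' := by
    intro k hk k' hk' h
    rcases lt_trichotomy k k' with h1 | h1 | h1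
    · exact absurd h (hlt k hk k' hk' h1).ne
    · exact h1
    · exact absurd h (hlt k' hk' k hk h1).ne'
  -- the gap pieces
  let Jc : ℕ → Finset ℕ := fun c => J.filter (fun k => cnt P (s k) = c ∧ cnt P (p k) = c)
  have hJc : ∀ c, Jc c ⊆ J := fun c => Finset.filter_subset _ _
  have hg : ∀ c, ∃ g, WW Ch F.Fam j g ∧ (∀ r, g r ≠ 0 → ∃ k ∈ Jc c, r = p k) ∧
      ‖∑ k ∈ Jc c, (l k : 𝕜) * D.co γ (x k)‖ ≤
        (mm W)⁻¹ * (C * ∑ k ∈ Jc c, l k * g (p k) + B * ∑ k ∈ Jc c, l k) := by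
    intro c
    obtain ⟨b', hb', hb⟩ := hgap γ c
    have hval : ∀ k ∈ Jc c, D.co γ (x k) = mi 𝕜 W * D.evX b' (x k) := by
      intro k hk
      rw [Finset.mem_filter] at hk
      have hkI := hJ hk.1
      exact hb (s k) (p k) (x k) (hS.sp k hkI).le (hS.ran k hkI) hk.2.1 hk.2.2
    have hl0 : ∀ k ∈ Jc c, 0 ≤ l k := fun k hk => hS.l0 k (hJ (hJc c hk))
    rcases hb' with rfl | ⟨ζ, hζ, rfl⟩
    · refine ⟨_, WW.zero, fun r hr => absurd rfl hr, ?_⟩
      have : ∑ k ∈ Jc c, (l k : 𝕜) * D.co γ (x k) = 0 := by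
        apply Finset.sum_eq_zero
        intro k hk
        rw [hval k hk, D.evX_apply]
        simp [ev]
      rw [this, norm_zero]
      have h1 : 0 ≤ ∑ k ∈ Jc c, l k := Finset.sum_nonneg hl0
      simp only [mul_zero, Finset.sum_const_zero, zero_add]
      positivity
    · obtain ⟨g, hg1, hg2, hg3⟩ := hyp ζ hζ (Jc c) (hJc c)
      refine ⟨g, hg1, hg2, ?_⟩
      have : ∑ k ∈ Jc c, (l k : 𝕜) * D.co γ (x k) =
          mi 𝕜 W * D.evX (D.b ζ) (∑ k ∈ Jc c, (l k : 𝕜) • x k) := by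
        rw [map_sum, Finset.mul_sum]
        apply Finset.sum_congr rfl
        intro k hk
        rw [hval k hk, map_smul, smul_eq_mul]
        ring
      rw [this, norm_mul, norm_mi]
      exact mul_le_mul_of_nonneg_left hg3 hm0.le
  choose g hgW hgs hgn using hg
  set S : Finset ℕ := (J.filter (fun k => cnt P (s k) ≠ cnt P (p k))).image p with hSdef
  set h : ℕ → ℝ := fun t => g (cnt P t) t with hh
  have hSc : ∀ a ∈ S, ∀ b ∈ S, cnt P a = cnt P b → a = b := by
    intro a ha b hb hab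
    rw [hSdef, Finset.mem_image] at ha hb
    obtain ⟨k, hk, rfl⟩ := ha
    obtain ⟨k', hk', rfl⟩ := hb
    rw [Finset.mem_filter] at hk hk'
    rcases lt_trichotomy k k' with h1 | h1 | h1
    · exfalso
      have h2 := comb_cnt_mono P (hS.ps k (hJ hk.1) k' (hJ hk'.1) h1)
      have h3 := comb_cnt_mono P (hS.sp k' (hJ hk'.1)).le
      have h4 := hk'.2
      omega
    · rw [h1]
    · exfalso
      have h2 := comb_cnt_mono P (hS.ps k' (hJ hk'.1) k (hJ hk.1) h1)
      have h3 := comb_cnt_mono P (hS.sp k (hJ hk.1)).le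
      have h4 := hk.2
      omega
  have hgc : ∀ c t, g c t ≠ 0 → cnt P t = c := by
    intro c t ht
    obtain ⟨k, hk, rfl⟩ := hgs c t ht
    exact (Finset.mem_filter.1 hk).2.2
  have hhc : ∀ c, WW Ch F.Fam j (fun t => if cnt P t = c then h t else 0) := by
    intro c
    have : (fun t => if cnt P t = c then h t else 0) = g c := by
      funext t
      split_ifs with ht
      · rw [hh, ← ht]
      · by_contra h1
        exact ht (hgc c t (Ne.symm h1))
    rw [this]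
    exact hgW c
  have hd : ∀ t ∈ S, h t = 0 := by
    intro t ht
    rw [hSdef, Finset.mem_image] at ht
    obtain ⟨k, hk, rfl⟩ := ht
    rw [Finset.mem_filter] at hk
    by_contra h1
    obtain ⟨k', hk', hkk⟩ := hgs _ _ h1
    rw [Finset.mem_filter] at hk'
    have h2 := hpinj k (hJ hk.1) k' (hJ hk'.1) hkk
    subst h2
    exact hk.2 (hk'.2.1.trans hk'.2.2.symm)
  refine ⟨_, WW.node W hγ P hadm S hSc h hhc hd, ?_, ?_⟩
  · intro r hr
    by_cases hrS : r ∈ S
    · rw [hSdef, Finset.mem_image] at hrS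
      obtain ⟨k, hk, rfl⟩ := hrS
      exact ⟨k, (Finset.mem_filter.1 hk).1, rfl⟩
    · have h1 : h r ≠ 0 := by
        intro h0
        apply hr
        simp [hrS, h0]
      obtain ⟨k, hk, rfl⟩ := hgs _ _ h1
      exact ⟨k, hJc _ hk, rfl⟩
  · -- the estimate
    set Js := J.filter (fun k => cnt P (s k) ≠ cnt P (p k)) with hJs
    set Jn := J.filter (fun k => ¬ (cnt P (s k) ≠ cnt P (p k))) with hJn
    have hsplit : ∀ (f : ℕ → 𝕜), ∑ k ∈ J, f k = ∑ k ∈ Js, f k + ∑ k ∈ Jn, f k := fun f =>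
      (Finset.sum_filter_add_sum_filter_not J _ f).symm
    have hsplitR : ∀ (f : ℕ → ℝ), ∑ k ∈ J, f k = ∑ k ∈ Js, f k + ∑ k ∈ Jn, f k := fun f =>
      (Finset.sum_filter_add_sum_filter_not J _ f).symm
    set Cs := Jn.image (fun k => cnt P (p k)) with hCs
    have hfib : ∀ c, Jn.filter (fun k => cnt P (p k) = c) = Jc c := by
      intro c
      ext k
      simp only [hJn, Jc, Finset.mem_filter, ne_eq, not_not]
      constructor
      · rintro ⟨⟨h1, h2⟩, h3⟩
        exact ⟨h1, h2.trans h3, h3⟩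
      · rintro ⟨h1, h2, h3⟩
        exact ⟨⟨h1, h2.trans h3.symm⟩, h3⟩
    have hfs : ∀ (f : ℕ → 𝕜), ∑ k ∈ Jn, f k = ∑ c ∈ Cs, ∑ k ∈ Jc c, f k := by
      intro f
      rw [← Finset.sum_fiberwise_of_maps_to (s := Jn) (t := Cs) (g := fun k => cnt P (p k))
        (fun k hk => Finset.mem_image_of_mem _ hk)]
      exact Finset.sum_congr rfl (fun c _ => by rw [hfib c])
    have hfsR : ∀ (f : ℕ → ℝ), ∑ k ∈ Jn, f k = ∑ c ∈ Cs, ∑ k ∈ Jc c, f k := by
      intro f
      rw [← Finset.sum_fiberwise_of_maps_to (s := Jn) (t := Cs) (g := fun k => cnt P (p k))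
        (fun k hk => Finset.mem_image_of_mem _ hk)]
      exact Finset.sum_congr rfl (fun c _ => by rw [hfib c])
    have hJsJ : Js ⊆ J := Finset.filter_subset _ _
    have hJnJ : Jn ⊆ J := Finset.filter_subset _ _
    -- split part
    have e1 : ‖∑ k ∈ Js, (l k : 𝕜) * D.co γ (x k)‖ ≤ C * ∑ k ∈ Js, l k * (mm W)⁻¹ := by
      refine (norm_sum_le _ _).trans ?_
      rw [Finset.mul_sum]
      apply Finset.sum_le_sum
      intro k hk
      have hkI := hJ (hJsJ hk)
      have h1 := hS.sm k hkI γ hγ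
      have h2 := hS.l0 k hkI
      rw [norm_mul, RCLike.norm_ofReal, abs_of_nonneg h2]
      calc l k * ‖D.co γ (x k)‖ ≤ l k * (C * (mm W)⁻¹) := mul_le_mul_of_nonneg_left h1 h2
        _ = C * (l k * (mm W)⁻¹) := by ring
    -- gap part
    have e2 : ‖∑ k ∈ Jn, (l k : 𝕜) * D.co γ (x k)‖ ≤
        (mm W)⁻¹ * (C * ∑ k ∈ Jn, l k * h (p k) + B * ∑ k ∈ Jn, l k) := by
      rw [hfs]
      refine (norm_sum_le _ _).trans ?_
      refine (Finset.sum_le_sum (fun c _ => hgn c)).trans_eq ?_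
      rw [← Finset.mul_sum, Finset.sum_add_distrib, ← Finset.mul_sum, ← Finset.mul_sum, hfsR,
        hfsR]
      congr 3
      apply Finset.sum_congr rfl
      intro c _
      apply Finset.sum_congr rfl
      intro k hk
      show l k * g c (p k) = l k * g (cnt P (p k)) (p k)
      rw [(Finset.mem_filter.1 hk).2.2]
    have hl0 : ∀ k ∈ J, 0 ≤ l k := fun k hk => hS.l0 k (hJ hk)
    have e3 : ∑ k ∈ Js, l k * (mm W)⁻¹ ≤
        ∑ k ∈ Js, l k * ((mm W)⁻¹ * ((if p k ∈ S then 1 else 0) + h (p k))) := by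
      apply Finset.sum_le_sum
      intro k hk
      have hkS : p k ∈ S := Finset.mem_image_of_mem _ hk
      rw [if_pos hkS, hd _ hkS, add_zero, mul_one]
    have e4 : (mm W)⁻¹ * ∑ k ∈ Jn, l k * h (p k) ≤
        ∑ k ∈ Jn, l k * ((mm W)⁻¹ * ((if p k ∈ S then 1 else 0) + h (p k))) := by
      rw [Finset.mul_sum]
      apply Finset.sum_le_sum
      intro k hk
      have h1 : (0 : ℝ) ≤ (if p k ∈ S then 1 else 0) := by split_ifs <;> norm_num
      have h2 := hl0 k (hJnJ hk)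
      calc (mm W)⁻¹ * (l k * h (p k)) = l k * ((mm W)⁻¹ * (0 + h (p k))) := by ring
        _ ≤ _ := by gcongr
    have e5 : 0 ≤ ∑ k ∈ Js, l k := Finset.sum_nonneg (fun k hk => hl0 k (hJsJ hk))
    rw [hsplit, hsplitR (fun k => l k * ((mm W)⁻¹ * ((if p k ∈ S then 1 else 0) + h (p k)))),
      hsplitR l]
    refine (norm_add_le _ _).trans ?_
    have e6 := mul_le_mul_of_nonneg_left e3 hS.C0
    have e7 := mul_le_mul_of_nonneg_left e4 hS.C0
    have e8 : 0 ≤ B * (mm W)⁻¹ * ∑ k ∈ Js, l k := by positivity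
    nlinarith [e1, e2, e6, e7, e8]

end CAL
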