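import Pool.Agent.H27.CAL.Stmts2

/-! Project CAL, module EVAL -/

open scoped BigOperators ENNReal Topology
open Filter

namespace CAL

variable {𝕜 : Type*} [RCLike 𝕜] {A : Type*} [PartialOrder A] {Y : Type*} [NormedAddCommGroup Y]
  [NormedSpace 𝕜 Y] {τ : TreeLev A}

theorem eval_congr (D : Dat 𝕜 Y τ) (γ : ℕ) (x : D.X) :
    D.evX (D.b γ) (D.PX (D.lev γ - 1) x) = D.evX (D.b γ) x := by
  rw [D.evX_apply, D.evX_apply]
  apply ev_congr
  · intro β hβ
    have h := D.b_sc γ β hβ
    exact D.co_PX_le x (by omega)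
  · intro a ha
    have h := D.b_nd γ a ha
    have h1 := D.nd_PX (D.lev γ - 1) a x
    rw [τ.ret_self (show τ.lev a ≤ D.lev γ - 1 by omega)] at h1
    exact h1

theorem cal_eval (D : Dat 𝕜 Y τ) : EVALStmt D := by
  refine ⟨?_, ?_, ?_⟩
  · intro γ x hp
    have h := D.co_PX_none (p := D.lev γ - 1) x (by have := D.lev_pos γ; omega) hp
    rw [eval_congr] at h
    show D.co γ x = (D.co γ x - D.co γ (D.PX (D.lev γ - 1) x)) + _
    rw [h]
    ring
  · intro γ ξ x hp
    have h := D.co_PX_some (p := D.lev γ - 1) x (by have := D.lev_pos γ; omega) hp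
    have hl := D.pred_lev _ _ hp
    rw [eval_congr, min_eq_right (show D.lev ξ ≤ D.lev γ - 1 by omega),
      D.co_PX_le x (show D.lev ξ ≤ D.lev γ - 1 by omega)] at h
    show D.co γ x = (D.co γ x - D.co γ (D.PX (D.lev γ - 1) x)) + _ + _
    rw [h]
    ring
  · intro γ x
    have h : D.ds γ x = D.co γ (x - D.PX (D.lev γ - 1) x) := by
      rw [map_sub]
      rfl
    rw [h]
    exact D.norm_co_le γ _

end CAL
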