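import Pool.Agent.H27.CAL.Stmts2

/-! Project CAL, modules RAN and ANC -/

open scoped BigOperators ENNReal Topology
open Filter

namespace CAL

variable {𝕜 : Type*} [RCLike 𝕜] {A : Type*} [PartialOrder A] {Y : Type*} [NormedAddCommGroup Y]
  [NormedSpace 𝕜 Y] {τ : TreeLev A}

theorem cal_ran (D : Dat 𝕜 Y τ) : RANStmt D := by
  have h1 : ∀ s t x, D.InRan s t x → ∀ γ, D.lev γ ≤ s → D.co γ x = 0 := by
    intro s t x hx γ hγ
    rw [← D.co_PX_le x hγ, hx.1, map_zero]
  have h2 : ∀ s t x, D.InRan s t x → ∀ a, τ.lev a ≤ s → D.nd a x = 0 := by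
    intro s t x hx a ha
    have h := D.nd_PX s a x
    rw [τ.ret_self ha, hx.1, map_zero] at h
    exact h.symm
  refine ⟨h1, h2, ?_, ?_, ?_, ?_, ?_, ?_, ?_⟩
  · intro s t s' t' x hs ht hx
    constructor
    · rw [← min_eq_left hs, ← D.PX_PX, hx.1, map_zero]
    · have h := D.PX_PX t' t x
      rwa [hx.2, min_eq_right ht, hx.2] at h
  · intro s t x p hx hp
    rw [← min_eq_left hp, ← D.PX_PX, hx.1, map_zero]
  · intro s t x p hx hp
    have h := D.PX_PX p t x
    rwa [hx.2, min_eq_right hp, hx.2] at h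
  · intro s t x y hx hy
    exact ⟨by rw [map_add, hx.1, hy.1, add_zero], by rw [map_add, hx.2, hy.2]⟩
  · intro s t x c hx
    exact ⟨by rw [map_smul, hx.1, smul_zero], by rw [map_smul, hx.2]⟩
  · intro s t x hst
    constructor
    · rw [map_sub, D.PX_PX, D.PX_PX, min_eq_left hst, min_self, sub_self]
    · rw [map_sub, D.PX_PX, D.PX_PX, min_self, min_eq_right hst]
  · intro s t x a hx ha
    have h := D.nd_PX t a x
    rw [hx.2] at h
    rcases hr : τ.ret t a with _ | b
    · rw [hr] at h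
      exact absurd h ha
    · rw [hr] at h
      have hb := (τ.ret_eq_some).1 hr
      refine ⟨b, hb.1, ?_, hb.2.1⟩
      by_contra hlt
      exact ha (h.trans (h2 s t x hx b (not_lt.1 hlt)))

theorem cal_anc (D : Dat 𝕜 Y τ) : ANCStmt D := by
  have hself : ∀ γ, D.lev γ ∈ D.Lv γ := by
    intro γ
    rcases hp : D.pred γ with _ | ξ
    · rw [D.Lv_none γ hp]
      exact Finset.mem_singleton_self _
    · rw [D.Lv_some γ ξ hp]
      exact Finset.mem_insert_self _ _
  have h1 : ∀ ξ γ, D.Anc ξ γ → D.lev ξ ≤ D.lev γ ∧ D.wt ξ = D.wt γ ∧ D.lev ξ ∈ D.Lv γ ∧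
      D.Lv ξ ⊆ D.Lv γ := by
    intro ξ γ h
    induction h with
    | refl => exact ⟨le_rfl, rfl, hself _, Finset.Subset.refl _⟩
    | step hp _ ih =>
      obtain ⟨i1, i2, i3, i4⟩ := ih
      have hsub := D.Lv_some _ _ hp
      refine ⟨i1.trans (D.pred_lev _ _ hp).le, i2.trans (D.pred_wt _ _ hp), ?_, ?_⟩
      · rw [hsub]
        exact Finset.mem_insert_of_mem i3
      · rw [hsub]
        exact i4.trans (Finset.subset_insert _ _)
  have h3 : ∀ ξ ζ γ, D.Anc ξ ζ → D.Anc ζ γ → D.Anc ξ γ := by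
    intro ξ ζ γ h h'
    induction h' with
    | refl => exact h
    | step hp _ ih => exact Dat.Anc.step hp ih
  refine ⟨h1, ?_, h3, ?_⟩
  · intro γ
    induction hn : D.lev γ using Nat.strong_induction_on generalizing γ with
    | _ n ih =>
      intro p hp
      rcases hpr : D.pred γ with _ | ξ
      · rw [D.Lv_none γ hpr, Finset.mem_singleton] at hp
        exact ⟨γ, Dat.Anc.refl γ, hp.symm⟩
      · rw [D.Lv_some γ ξ hpr, Finset.mem_insert] at hp
        rcases hp with hp | hp
        · exact ⟨γ, Dat.Anc.refl γ, hp.symm⟩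
        · obtain ⟨ζ, hζ, hl⟩ := ih (D.lev ξ) (by rw [← hn]; exact D.pred_lev _ _ hpr) ξ rfl p hp
          exact ⟨ζ, Dat.Anc.step hpr hζ, hl⟩
  · intro ξ ζ γ hξ hζ hle
    induction hζ with
    | refl => exact hξ
    | step hp hζ' ih =>
      rename_i ζ' γ'
      cases hξ with
      | refl =>
        exfalso
        have h4 := D.pred_lev _ _ hp
        have h5 := (h1 _ _ hζ').1
        omega
      | step hp2 hξ' =>
        rw [hp] at hp2
        cases hp2
        exact ih hξ'

end CAL
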