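import Pool.Agent.H27.CAL.Stmts2

/-! Project CAL, module RAV -/

open scoped BigOperators ENNReal Topology
open Filter

namespace CAL

variable {𝕜 : Type*} [RCLike 𝕜] {A : Type*} [PartialOrder A] {Y : Type*} [NormedAddCommGroup Y]
  [NormedSpace 𝕜 Y] {τ : TreeLev A}

theorem cal_rav (D : Dat 𝕜 Y τ) (hN : AVGNStmt D) (hD : AVGDStmt D) (hS : RSYSStmt D)
    (hran : RANStmt D) : RAVStmt D := by
  classical
  intro Ch F w R C x s t jj j n p l hR hj hp htp hps hG
  obtain ⟨hl0, hlz, hl1, hlg⟩ := hG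
  obtain ⟨-, -, hran3, -, -, hran6, hran7, -, -⟩ := hran
  have hC : 0 ≤ C := (norm_nonneg _).trans (hR.nm 0)
  have him : ∀ f : ℕ → ℝ, ∑ k ∈ (Finset.range n).image p, f k = ∑ r ∈ Finset.range n, f (p r) :=
    fun f => Finset.sum_image (hp.injective.injOn)
  rw [him] at hl1
  have hn : 0 < n := by
    rcases Nat.eq_zero_or_pos n with h | h
    · subst h
      simp at hl1
    · exact h
  have hsm : StrictMono s := strictMono_nat_of_lt_succ (fun k => (hR.st k).trans_le (hR.ts k))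
  have htm : StrictMono t := strictMono_nat_of_lt_succ
    (fun k => (hR.ts k).trans_lt (hR.st (k + 1)))
  have hps' : ∀ k ∈ Finset.range n, ∀ k' ∈ Finset.range n, k < k' → p k ≤ s k' := by
    intro k hk k' hk' h
    rw [Finset.mem_range] at hk hk'
    exact (hps k (by omega)).trans (hsm.monotone (show k + 1 ≤ k' from h))
  have hjj : ∀ k ∈ Finset.range n, j < jj k := fun k _ => hj.trans_le (hR.jm.monotone (Nat.zero_le k))
  have htp' : ∀ k ∈ Finset.range n, t k ≤ p k := fun k hk => htp k (Finset.mem_range.1 hk)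
  have hl0' : ∀ k ∈ Finset.range n, 0 ≤ (fun r => l (p r)) k := fun k _ => hl0 _
  have ha := mm_inv_pos j
  have ha4 := mm_inv_le j
  have hsys := hS C x s t jj (Finset.range n) p (fun r => l (p r)) j ((mm j)⁻¹) hR hjj htp' hps'
    hl0' ha.le (fun γ hγ => mm_inv_anti hγ)
  have heps : (0 : ℝ) ≤ epsj j := by unfold epsj; positivity
  have hlg' : ∀ g, WW Ch F.Fam j g → ∑ k ∈ Finset.range n, (fun r => l (p r)) k * g (p k) ≤
      epsj j := by
    intro g hg
    have := hlg g hg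
    rwa [him (fun k => l k * g k)] at this
  obtain ⟨hn1, -, hn3, -⟩ := hN F w R j C ((mm j)⁻¹) (Finset.range n) x s p (fun r => l (p r))
    (epsj j) hsys.1 hl1.le heps hlg'
  have he3 : epsj j = (mm j)⁻¹ ^ 3 := rfl
  refine ⟨hn, hl1, ?_, ?_, ?_, ?_, ?_⟩
  · apply Finset.sum_induction
      (fun r => ((l (p r) : 𝕜)) • x r) (fun y => D.InRan (s 0) (t (n - 1)) y)
    · intro y z hy hz
      exact hran6 _ _ y z hy hz
    · exact ⟨map_zero _, map_zero _⟩
    · intro r hr
      rw [Finset.mem_range] at hr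
      exact hran7 _ _ _ _ (hran3 (s r) (t r) (s 0) (t (n - 1)) (x r)
        (hsm.monotone (Nat.zero_le r)) (htm.monotone (by omega)) (hR.ran r))
  · refine hn1.trans ?_
    rw [he3]
    have h1 : (mm j)⁻¹ ^ 3 ≤ (mm j)⁻¹ := by
      have : (mm j)⁻¹ ^ 2 ≤ 1 := by nlinarith
      nlinarith
    nlinarith
  · intro hw
    have hsys2 := hS C x s t jj (Finset.range n) p (fun r => l (p r)) j ((mm j)⁻¹ ^ 2) hR hjj htp'
      hps' hl0' (by positivity)
      (fun γ hγ => mm_inv_sq (lt_of_le_of_ne hγ (Ne.symm (hw γ))))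
    obtain ⟨hn1, -, -, -⟩ := hN F w R j C ((mm j)⁻¹ ^ 2) (Finset.range n) x s p
      (fun r => l (p r)) (epsj j) hsys2.1 hl1.le heps hlg'
    refine hn1.trans ?_
    rw [he3]
    have h1 : (mm j)⁻¹ ^ 3 ≤ (mm j)⁻¹ ^ 2 := by
      have : 0 ≤ (mm j)⁻¹ ^ 2 := by positivity
      nlinarith
    nlinarith
  · intro γ hγ
    refine (hn3 γ hγ).trans ?_
    have hb := mm_inv_pos (D.wt γ)
    have hb4 := mm_inv_le (D.wt γ)
    have hab := mm_inv_sq hγ
    rw [he3]
    set a := (mm j)⁻¹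
    set b := (mm (D.wt γ))⁻¹
    have h1 : a ≤ b := by nlinarith
    have h2 : a ^ 3 ≤ a * b := by
      have h3 : a ^ 2 ≤ b := by nlinarith
      nlinarith
    nlinarith
  · intro γ hO hγ hno
    obtain ⟨g, hg1, -, hg3⟩ := hD F w R j C (Finset.range n) x s p (fun r => l (p r)) hsys.1
      hsys.2 γ hO hγ hno (Finset.range n) (Finset.Subset.refl _)
    rw [map_sum]
    simp only [map_smul, smul_eq_mul]
    refine hg3.trans ?_
    have h4 := hlg' g hg1
    rw [he3] at h4
    have hl1' : ∑ k ∈ Finset.range n, (fun r => l (p r)) k = 1 := hl1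
    rw [hl1']
    have hb := mm_inv_pos (D.wt γ)
    have hb4 := mm_inv_le (D.wt γ)
    have hab := mm_inv_sq hγ
    set a := (mm j)⁻¹
    set b := (mm (D.wt γ))⁻¹
    have h1 : a ≤ b := by nlinarith
    have h2 : a ^ 3 ≤ a * b ^ 2 := by
      have h3 : a ^ 2 ≤ b ^ 2 := by nlinarith
      nlinarith
    have h5 : b * (a * b ^ 2) ≤ a * b ^ 2 := by
      have : 0 ≤ a * b ^ 2 := by positivity
      nlinarith
    have h6 : b * a ^ 2 ≤ a * b ^ 2 := by nlinarith [mul_pos ha hb]
    have h7 := mul_le_mul_of_nonneg_left h4 hC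
    have h8 : b * (a * b ^ 2 + a ^ 2) ≤ 2 * (a * b ^ 2) := by linarith
    have h9 := mul_le_mul_of_nonneg_left h8 hC
    have h10 := mul_le_mul_of_nonneg_left h2 hC
    calc _ ≤ C * a ^ 3 + C * (b * (a * b ^ 2 + a ^ 2)) := by
          have : C * b * (a * b ^ 2 + a ^ 2) * 1 = C * (b * (a * b ^ 2 + a ^ 2)) := by ring
          rw [this]
          linarith
      _ ≤ 3 * C * a * b ^ 2 := by nlinarith

end CAL
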