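import Pool.Agent.H27.CAL.Stmts2

/-! Project CAL, module RNULL -/

open scoped BigOperators ENNReal Topology
open Filter

namespace CAL

variable {𝕜 : Type*} [RCLike 𝕜] {A : Type*} [PartialOrder A] {Y : Type*} [NormedAddCommGroup Y]
  [NormedSpace 𝕜 Y] {τ : TreeLev A}

theorem rnull_unbounded (X : ℝ) : ∃ j0, ∀ j ≥ j0, X < mm j := by
  obtain ⟨n, hn⟩ := pow_unbounded_of_one_lt X (show (1 : ℝ) < 4 by norm_num)
  refine ⟨n, fun j hj => hn.trans_le ?_⟩
  unfold mm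
  exact pow_le_pow_right₀ (by norm_num) (hj.trans (Nat.lt_two_pow_self).le)

theorem cal_rnull (D : Dat 𝕜 Y τ) (hsub : SUBStmt D) (hrav : RAVStmt D) (hgood : GOODEXStmt) :
    RNULLStmt D := by
  classical
  intro Ch F w R f x hx
  obtain ⟨C, s, t, jj, hR⟩ := hx
  have hC : 0 ≤ C := (norm_nonneg _).trans (hR.nm 0)
  by_contra h
  rw [Metric.tendsto_atTop] at h
  push Not at h
  obtain ⟨δ, hδ, hbad⟩ := h
  obtain ⟨φ, hφ, hφb⟩ := extraction_of_frequently_atTop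
    (P := fun k => δ ≤ dist (f (x k)) 0)
    (frequently_atTop.2 (fun N => by obtain ⟨n, hn, h⟩ := hbad N; exact ⟨n, hn, h⟩))
  have hc : ∀ k, ∃ c : 𝕜, ‖c‖ = 1 ∧ (‖f (x (φ k))‖ : 𝕜) = c * f (x (φ k)) := fun k =>
    RCLike.exists_norm_eq_mul_self _
  choose c hc1 hc2 using hc
  have hR1 := hsub.1 C x s t jj φ hR hφ
  have hR2 := hsub.2.1 C _ _ _ _ c hR1 (fun k => (hc1 k).le)
  have key : ∀ j, δ ≤ ‖f‖ * (2 * C * (mm j)⁻¹) := by
    intro j
    have hψ : StrictMono (fun k => j + 1 + k) := fun a b hab => by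
      show j + 1 + a < j + 1 + b
      omega
    have hR3 := hsub.1 C _ _ _ _ _ hR2 hψ
    set z : ℕ → D.X := (fun k => c k • (x ∘ φ) k) ∘ (fun k => j + 1 + k) with hz
    set t' : ℕ → ℕ := (t ∘ φ) ∘ (fun k => j + 1 + k) with ht'
    have htm : StrictMono t' := strictMono_nat_of_lt_succ
      (fun k => (hR3.ts k).trans_lt (hR3.st (k + 1)))
    obtain ⟨n, l, hG, -⟩ := hgood F j t' htm
    have hj0 : j < ((jj ∘ φ) ∘ (fun k => j + 1 + k)) 0 := by
      show j < jj (φ (j + 1 + 0))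
      have h1 := hR.jm.le_apply (x := φ (j + 1 + 0))
      have h2 := hφ.le_apply (x := j + 1 + 0)
      omega
    obtain ⟨hn, hl1, -, hnorm, -⟩ := hrav F w R C z _ t' _ j n t' l hR3 hj0 htm
      (fun r _ => le_rfl) (fun r _ => hR3.ts r) hG
    have h1 : ∀ r, RCLike.re (f ((l (t' r) : 𝕜) • z r)) = l (t' r) * ‖f (x (φ (j + 1 + r)))‖ := by
      intro r
      have h2 : f (z r) = (‖f (x (φ (j + 1 + r)))‖ : 𝕜) := by
        rw [hc2]
        show f (c (j + 1 + r) • x (φ (j + 1 + r))) = _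
        rw [map_smul, smul_eq_mul]
      rw [map_smul, smul_eq_mul, h2, ← RCLike.ofReal_mul, RCLike.ofReal_re]
    have h3 : δ ≤ RCLike.re (f (∑ r ∈ Finset.range n, (l (t' r) : 𝕜) • z r)) := by
      rw [map_sum, map_sum]
      calc δ = ∑ r ∈ Finset.range n, l (t' r) * δ := by rw [← Finset.sum_mul, hl1, one_mul]
        _ ≤ _ := by
          apply Finset.sum_le_sum
          intro r _
          rw [h1]
          apply mul_le_mul_of_nonneg_left _ (hG.1 _)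
          have h4 := hφb (j + 1 + r)
          rwa [dist_zero_right] at h4
    calc δ ≤ RCLike.re (f (∑ r ∈ Finset.range n, (l (t' r) : 𝕜) • z r)) := h3
      _ ≤ ‖f (∑ r ∈ Finset.range n, (l (t' r) : 𝕜) • z r)‖ := RCLike.re_le_norm _
      _ ≤ ‖f‖ * ‖∑ r ∈ Finset.range n, (l (t' r) : 𝕜) • z r‖ := f.le_opNorm _
      _ ≤ _ := mul_le_mul_of_nonneg_left hnorm f.opNorm_nonneg
  obtain ⟨j0, hj0⟩ := rnull_unbounded (‖f‖ * (2 * C) / δ)
  have h1 := key j0
  have h2 := hj0 j0 le_rfl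
  have h3 := mm_pos j0
  rw [div_lt_iff₀ hδ] at h2
  have h4 : ‖f‖ * (2 * C * (mm j0)⁻¹) = ‖f‖ * (2 * C) / mm j0 := by ring
  rw [h4, le_div_iff₀ h3] at h1
  linarith

end CAL
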