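import Pool.Agent.H27.CAL.Stmts2

/-! Project CAL, module RSYS -/

open scoped BigOperators ENNReal Topology
open Filter

namespace CAL

variable {𝕜 : Type*} [RCLike 𝕜] {A : Type*} [PartialOrder A] {Y : Type*} [NormedAddCommGroup Y]
  [NormedSpace 𝕜 Y] {τ : TreeLev A}

theorem cal_rsys (D : Dat 𝕜 Y τ) (hran : RANStmt D) (hlev : LEVWStmt D) : RSYSStmt D := by
  classical
  intro C x s t jj I p l j μ hR hj hp hps hl hmu hμ
  obtain ⟨-, -, hran3, -, -, -, -, -, -⟩ := hran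
  have hC : 0 ≤ C := (norm_nonneg _).trans (hR.nm 0)
  have key : ∀ γ, j ≤ D.wt γ → ∀ J ⊆ I, J.Nonempty → ∃ k0 ∈ J,
      ∑ k ∈ J, l k * ‖D.co γ (x k)‖ ≤ C * l k0 + C * (mm (D.wt γ))⁻¹ * ∑ k ∈ J, l k := by
    intro γ hγ J hJ hJn
    have hm := mm_inv_pos (D.wt γ)
    have gen : ∀ k0 ∈ J, (∀ k ∈ J, k ≠ k0 → ‖D.co γ (x k)‖ ≤ C * (mm (D.wt γ))⁻¹) →
        ∑ k ∈ J, l k * ‖D.co γ (x k)‖ ≤ C * l k0 + C * (mm (D.wt γ))⁻¹ * ∑ k ∈ J, l k := by
      intro k0 hk0 hall
      have e1 : ∀ k ∈ J, l k * ‖D.co γ (x k)‖ ≤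
          (if k = k0 then C * l k0 else 0) + C * (mm (D.wt γ))⁻¹ * l k := by
        intro k hk
        have hlk := hl k (hJ hk)
        split_ifs with h
        · subst h
          have h1 : ‖D.co γ (x k)‖ ≤ C := (D.norm_co_le γ _).trans (hR.nm k)
          have h2 : 0 ≤ C * (mm (D.wt γ))⁻¹ * l k := by positivity
          nlinarith [mul_le_mul_of_nonneg_left h1 hlk]
        · have h1 := mul_le_mul_of_nonneg_left (hall k hk h) hlk
          calc l k * ‖D.co γ (x k)‖ ≤ l k * (C * (mm (D.wt γ))⁻¹) := h1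
            _ = 0 + C * (mm (D.wt γ))⁻¹ * l k := by ring
      refine (Finset.sum_le_sum e1).trans_eq ?_
      rw [Finset.sum_add_distrib, Finset.sum_ite_eq', if_pos hk0, Finset.mul_sum]
    rcases (J.filter (fun k => jj k ≤ D.wt γ)).eq_empty_or_nonempty with hE | hE
    · obtain ⟨k0, hk0⟩ := hJn
      refine ⟨k0, hk0, gen k0 hk0 (fun k hk _ => ?_)⟩
      apply hR.sm
      by_contra h
      have : k ∈ J.filter (fun k => jj k ≤ D.wt γ) := Finset.mem_filter.2 ⟨hk, not_lt.1 h⟩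
      rw [hE] at this
      exact absurd this (Finset.notMem_empty _)
    · set k0 := (J.filter (fun k => jj k ≤ D.wt γ)).max' hE with hk0
      have hk0m := Finset.mem_filter.1 (Finset.max'_mem _ hE)
      rw [← hk0] at hk0m
      refine ⟨k0, hk0m.1, gen k0 hk0m.1 (fun k hk hne => ?_)⟩
      rcases lt_or_gt_of_ne hne with h | h
      · have h1 : t k < D.wt γ := by
          have h2 := hR.jt k
          have h3 := hR.jm.monotone (show k + 1 ≤ k0 from h)
          have h4 := hk0m.2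
          omega
        refine (hlev (t k) (x k) γ (hR.ran k).2 h1).trans ?_
        rw [mul_comm C]
        exact mul_le_mul_of_nonneg_left (hR.nm k) hm.le
      · apply hR.sm
        by_contra h1
        have h2 : k ∈ J.filter (fun k => jj k ≤ D.wt γ) := Finset.mem_filter.2 ⟨hk, not_lt.1 h1⟩
        have h3 := Finset.le_max' _ k h2
        rw [← hk0] at h3
        omega
  refine ⟨⟨hC, hmu, ?_, ?_, hps, fun k _ => hR.nm k, hl, ?_, ?_⟩, key⟩
  · intro k hk
    exact hran3 (s k) (t k) (s k) (p k) (x k) le_rfl (hp k hk) (hR.ran k)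
  · intro k hk
    exact (hR.st k).trans_le (hp k hk)
  · intro k hk γ hγ
    exact hR.sm k γ (hγ.trans (hj k hk))
  · intro γ hγ J hJ hJn
    obtain ⟨k0, hk0, h⟩ := key γ hγ J hJ hJn
    refine ⟨k0, hk0, h.trans (add_le_add le_rfl ?_)⟩
    have : 0 ≤ ∑ k ∈ J, l k := Finset.sum_nonneg (fun k hk => hl k (hJ hk))
    exact mul_le_mul_of_nonneg_right (mul_le_mul_of_nonneg_left (hμ γ hγ) hC) this

end CAL
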