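import Pool.Agent.H12.CAL.LOX
import Pool.Agent.H12.CAL.TAILS
import Pool.Agent.H16.CAL.GAMNO
import Pool.Agent.H16.CAL.TRALL
import Pool.Agent.H19.CAL.MAIN
import Pool.Agent.H19.CAL.SCAL
import Pool.Agent.H22.CAL.LOCS
import Pool.Agent.H22.CAL.OPER
import Pool.Agent.H27.CALM.AVG2
import Pool.Agent.H27.CALM.AVGD
import Pool.Agent.H27.CALM.AVGN
import Pool.Agent.H27.CALM.COMB
import Pool.Agent.H27.CALM.EVAL
import Pool.Agent.H27.CALM.GAP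
import Pool.Agent.H27.CALM.RAN
import Pool.Agent.H27.CALM.RAV
import Pool.Agent.H27.CALM.RNULL
import Pool.Agent.H27.CALM.RSYS
import Pool.Agent.H28.CAL.BSEQ
import Pool.Agent.H28.CAL.BUILD
import Pool.Agent.H28.CAL.ECH
import Pool.Agent.H28.CAL.HSEP
import Pool.Agent.H35.CAL.PLUS
import Pool.Agent.H35.CAL.SGF
import Pool.Agent.H35.CAL.SUB
import Pool.Agent.H35.CAL.TRCL
import Pool.Agent.H35.CAL.TRCOV
import Pool.Agent.H35.CAL.TREE
import Pool.Agent.H35.CAL.TRIS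
import Pool.Agent.H35.CAL.TRLEV
import Pool.Agent.H35.CAL.TRSUB
import Pool.Agent.H4.CAL.PT
import Pool.Agent.H4.CAL.TR
import Pool.Agent.H43.CAL.INC
import Pool.Agent.H45.CAL.BIO
import Pool.Agent.H45.CAL.DEPB
import Pool.Agent.H45.CAL.HFR
import Pool.Agent.H45.CAL.LEVW
import Pool.Agent.H47.CAL.ECO
import Pool.Agent.H47.CAL.ENULL
import Pool.Agent.H47.CAL.PC
import Pool.Agent.H47.CAL.PCSUM
import Pool.Agent.H47.CAL.PLIM
import Pool.Agent.H47.CAL.WWF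
import Pool.Agent.H5.CAL.PTAK
import Pool.Agent.H5.CAL.PTAKF
import Pool.Agent.H5.CAL.WWB
import Pool.Agent.H5.CAL.WWC
import Pool.Agent.H51.CAL.EAPP
import Pool.Agent.H51.CAL.STEP
import Pool.Agent.H61.CAL.AVG1
import Pool.Agent.H61.CAL.MIX
import Pool.Agent.H62.CAL.BNULL
import Pool.Agent.H62.CAL.CHAIN
import Pool.Agent.H62.CAL.FAM
import Pool.Agent.H62.CAL.GOODEX
import Pool.Agent.H62.CAL.RICHEX
import Pool.Agent.H67.CAL.BIOA
import Pool.Agent.H67.CAL.BIOB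
import Pool.Agent.H67.CAL.PEX
import Pool.Agent.H67.CAL.UPX
import Pool.Agent.H67.CAL.VAL
import Pool.Agent.H76.CAL.HB
import Pool.Agent.H76.CAL.REP
import Pool.Agent.H76.CAL.RUN
import Pool.Agent.H76.CAL.WNC
import Pool.Agent.H78.CAL.TAIL
import Pool.Agent.H79.CAL.REC
import Pool.Agent.H79.CAL.REX
import Pool.Agent.H83.CAL.BLDF
import Pool.Agent.H83.CAL.CB
import Pool.Agent.H83.CAL.DEP
import Pool.Agent.H83.CAL.HSC
import Pool.Agent.H83.CAL.MAINB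
import Pool.Agent.H84.CAL.GAMAL
import Pool.Agent.H84.CAL.GAMEX
import Pool.Agent.H87.CAL.MULC
import Pool.Agent.H87.CAL.MULX
import Pool.Agent.H9.CAL.NET
import Pool.Agent.H9.CAL.TPC
import Pool.Agent.H91.CAL.ABS
import Pool.Agent.H91.CAL.DCB
import Pool.Agent.H91.CAL.EXACT
import Pool.Agent.H91.CAL.SPLIT
import Pool.Agent.H95.CAL.CRIT
import Pool.Agent.H95.CAL.DENC
import Pool.Agent.H95.CAL.HWN

/-!
# Project CAL: final assembly
-/

open scoped BigOperators ENNReal Topology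
open Filter

namespace CAL

universe u v w

theorem all_wwf : WWFStmt := cal_wwf cal_wwb cal_plim cal_plus
theorem all_ptakf : PTAKFStmt := cal_ptakf cal_ptak
theorem all_fam : FAMStmt := cal_fam all_ptakf cal_wwb cal_wwc all_wwf

section
variable {𝕜 : Type u} [RCLike 𝕜] {A : Type v} [PartialOrder A] {Y : Type w}
  [NormedAddCommGroup Y] [NormedSpace 𝕜 Y] {τ : TreeLev A} (D : Dat 𝕜 Y τ)

theorem all_unsp : UNSPStmt D := cal_unsp D (cal_ran D) (cal_anc D)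
theorem all_gap : GAPStmt D := cal_gap D (cal_ran D) (cal_anc D) (all_unsp D)
theorem all_bio : BIOStmt D := cal_bio D (cal_bioa D) (cal_biob D) (cal_eval D)
theorem all_comb : COMBStmt D := cal_comb D (all_gap D)
theorem all_avg1 : AVG1Stmt D := cal_avg1 D (all_comb D) (cal_ran D)
theorem all_avg2 : AVG2Stmt D := cal_avg2 D (cal_ran D)
theorem all_avgd : AVGDStmt D := cal_avgd D (all_comb D) (all_avg1 D)
theorem all_avgn : AVGNStmt D := cal_avgn D (all_avg1 D) (all_avg2 D)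
theorem all_rsys : RSYSStmt D := cal_rsys D (cal_ran D) (cal_levw D)
theorem all_rav : RAVStmt D := cal_rav D (all_avgn D) (all_avgd D) (all_rsys D) (cal_ran D)
theorem all_split : SPLITStmt D := cal_split D (cal_ran D) (cal_locs D)
theorem all_crit (Z : Type*) [NormedAddCommGroup Z] [NormedSpace 𝕜 Z] : CRITStmt D Z :=
  cal_crit D Z (all_split D)
theorem all_rnull : RNULLStmt D := cal_rnull D (cal_sub D) (all_rav D) cal_goodex
theorem all_bnull : BNULLStmt D := cal_bnull D (all_crit D 𝕜) (all_rnull D) (cal_tails D 𝕜)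
theorem all_rex : REXStmt D := cal_rex D (cal_locs D) (all_bio D)
theorem all_mix : MIXStmt D := cal_mix D (cal_ran D)
theorem all_step : STEPStmt D := cal_step D (cal_eval D) (cal_tail D) (cal_rep D)
theorem all_cb : CBStmt D := cal_cb D (all_step D) cal_run (cal_tail D) (cal_anc D)
theorem all_exact : EXACTStmt D := cal_exact D (all_cb D) (all_rav D) (cal_ran D) (cal_sub D)
theorem all_depb : DEPBStmt D := cal_depb D (cal_anc D) (all_unsp D)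
theorem all_dep : DEPStmt D := cal_dep D (all_depb D) (all_avgn D) (cal_ran D) (cal_levw D)
theorem all_dcb : DCBStmt D := cal_dcb D (cal_eval D) (cal_tail D) cal_run (cal_anc D)
theorem all_mainb : MAINBStmt D := cal_mainb D (all_dcb D) (all_dep D)
theorem all_main : MAINStmt D :=
  cal_main D (all_exact D) (all_mainb D) (cal_hb 𝕜 D.X) (cal_sub D)
theorem all_scal : SCALStmt D := cal_scal D (all_main D) (all_rex D) (cal_sub D) (all_mix D)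
theorem all_oper : OPERStmt D := cal_oper D (all_scal D) (all_crit D D.X) (cal_tails D D.X)

theorem all_inc {A' : Type*} [PartialOrder A'] {Y' : Type*} [NormedAddCommGroup Y']
    [NormedSpace 𝕜 Y'] {τ' : TreeLev A'} (D' : Dat 𝕜 Y' τ') : INCStmt D D' :=
  cal_inc D D' (cal_sub D) (all_cb D') (all_rav D) (all_rnull D)

theorem all_hsc [CompleteSpace Y] : HSCStmt D :=
  cal_hsc D (all_oper D) (cal_hpt D (all_bio D) (all_rnull D)) (cal_hfr D D.X (all_bio D))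
theorem all_hsep : HSEPStmt D := cal_hsep D (all_bnull D) (all_bio D)
theorem all_hwn : HWNStmt D := cal_hwn D (all_rex D) (all_rnull D) (cal_sub D)
theorem all_ept : EPTStmt D := cal_ept D (all_bio D) (all_rnull D)
theorem all_mulx : MULXStmt D := cal_mulx D (all_bio D)
theorem all_eapp : EAPPStmt D := cal_eapp D (all_oper D) (all_bio D)
theorem all_ech : ECHStmt D :=
  cal_ech D (all_rex D) (all_rnull D) (cal_wnc 𝕜 D.X D.X) (cal_ran D)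

end

section
variable {𝕜 : Type u} [RCLike 𝕜] {A : Type v} [PartialOrder A]

theorem all_enull {Y : Type w} [NormedAddCommGroup Y] [NormedSpace 𝕜 Y] {τ : TreeLev A}
    (D : Dat 𝕜 Y τ) {A0 : Type*} [PartialOrder A0] {Y0 : Type*} [NormedAddCommGroup Y0]
    [NormedSpace 𝕜 Y0] {τ0 : TreeLev A0} (D0 : Dat 𝕜 Y0 τ0) : ENULLStmt D D0 :=
  cal_enull D D0 (all_inc D D0) (all_bio D0) (all_rnull D) (cal_sub D)

theorem all_eco {τ : TreeLev A} {A0 : Type*} [PartialOrder A0] {Y0 : Type*}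
    [NormedAddCommGroup Y0] [NormedSpace 𝕜 Y0] {τ0 : TreeLev A0} (D0 : Dat 𝕜 Y0 τ0)
    (D : Dat 𝕜 D0.X τ) : ECOStmt D0 D :=
  cal_eco D0 D (all_inc D0 D) (all_crit D0 D.X) (cal_tails D0 D.X) (cal_hfr D0 D.X (all_bio D0))

theorem all_richex (τ : TreeLev A) (Y : Type w) [NormedAddCommGroup Y] [NormedSpace 𝕜 Y] :
    RICHEXStmt (𝕜 := 𝕜) τ Y :=
  cal_richex τ Y (cal_build τ Y cal_net (fun net => cal_bseq τ net cal_rec (cal_bldf τ net))
    cal_sgf) cal_pex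
end

theorem all_tree : TREEStmt.{u} :=
  cal_tree (fun K _ => cal_trall (cal_trcov K (cal_trsub K) (cal_trun K)) (cal_trrt K)
    (cal_trsub K) (cal_trcl K) (cal_tris K)) (fun K _ => cal_trlev K)

theorem all_abs (𝕜 : Type) [RCLike 𝕜] : ABSStmt.{u, v} 𝕜 :=
  cal_abs 𝕜 (fun X _ _ Z _ _ _ => cal_gamex 𝕜 X Z) (fun X _ _ Z _ _ => cal_gamal 𝕜 X Z)
    (fun X _ _ _ Z _ _ => cal_gamno 𝕜 X Z)

section
variable {𝕜 : Type*} [RCLike 𝕜] {A : Type v} [PartialOrder A] [TopologicalSpace A]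
  [CompactSpace A]

theorem all_denc (τ : TreeLev A) (hc : ∀ a : A, IsClopen {b | a ≤ b}) : DENCStmt 𝕜 τ hc :=
  cal_denc τ hc (cal_pc τ) (cal_pcsum τ hc) (cal_tpc cal_chain cal_ptak τ)

variable {Y : Type w} [NormedAddCommGroup Y] [NormedSpace 𝕜 Y] {τ : TreeLev A}

theorem all_upx (D : Dat 𝕜 Y τ) (hc : ∀ a : A, IsClopen {b | a ≤ b}) : UPXStmt D hc :=
  cal_upx D hc (cal_val D hc (all_bio D))

theorem all_lox (D : Dat 𝕜 Y τ) (hc : ∀ a : A, IsClopen {b | a ≤ b}) : LOXStmt D hc :=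
  cal_lox D hc (cal_val D hc (all_bio D)) (cal_wnc 𝕜 D.X D.X)

end

/-- the empty tree -/
def tau0 : TreeLev Empty where
  lev := fun a => a.elim
  lev_pos := fun a => a.elim
  lev_lt := fun a => a.elim
  fin := fun _ => Set.toFinite _
  total := fun a => a.elim
  wf := fun f _ => (f 0).elim

/-- two disjoint systems of weights -/
theorem exists_wts : ∃ w w' : Wts, Disjoint w.L w'.L := by
  have hinf : ∀ r < 6, {j : ℕ | j % 6 = r}.Infinite := by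
    intro r hr
    apply Set.infinite_of_injective_forall_mem (f := fun k : ℕ => 6 * k + r)
    · intro a b h
      simp only at h
      omega
    · intro k
      simp only [Set.mem_ofPred_eq]
      omega
  have hdis : ∀ r s, r ≠ s → Disjoint {j : ℕ | j % 6 = r} {j : ℕ | j % 6 = s} := by
    intro r s h
    rw [Set.disjoint_left]
    intro j h1 h2
    simp only [Set.mem_ofPred_eq] at h1 h2
    omega
  refine ⟨⟨{j | j % 6 = 0}, {j | j % 6 = 1}, {j | j % 6 = 2}, hdis _ _ (by decide),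
    hdis _ _ (by decide), hdis _ _ (by decide), hinf _ (by decide), hinf _ (by decide),
    hinf _ (by decide)⟩, ⟨{j | j % 6 = 3}, {j | j % 6 = 4}, {j | j % 6 = 5}, hdis _ _ (by decide),
    hdis _ _ (by decide), hdis _ _ (by decide), hinf _ (by decide), hinf _ (by decide),
    hinf _ (by decide)⟩, ?_⟩
  rw [Set.disjoint_left]
  intro j h1 h2
  simp only [Wts.L, Set.mem_union, Set.mem_ofPred_eq] at h1 h2
  omega

section
variable {𝕜 : Type*} [RCLike 𝕜] {A : Type*} [PartialOrder A] {Y : Type*} [NormedAddCommGroup Y]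
  [NormedSpace 𝕜 Y] {τ : TreeLev A}

theorem RX_add (D : Dat 𝕜 Y τ) (m m' : (A × A) →₀ 𝕜) : D.RX (m + m') = D.RX m + D.RX m' := by
  unfold Dat.RX
  refine Finsupp.sum_add_index' (fun _ => ?_) (fun _ _ _ => ?_)
  · ext1 x; exact zero_smul 𝕜 _
  · ext1 x; exact add_smul (R := 𝕜) _ _ _

theorem RX_smul (D : Dat 𝕜 Y τ) (c : 𝕜) (m : (A × A) →₀ 𝕜) : D.RX (c • m) = c • D.RX m := by
  unfold Dat.RX
  rw [Finsupp.sum_smul_index (fun _ => by ext1 x; exact zero_smul 𝕜 _), Finsupp.smul_sum]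
  exact Finsupp.sum_congr (fun _ _ => by ext1 x; exact mul_smul (α := 𝕜) _ _ _)

end

section
variable {𝕜 : Type*} [RCLike 𝕜] {A : Type*} [PartialOrder A] [TopologicalSpace A] [CompactSpace A]

theorem RC_add (τ : TreeLev A) (hc : ∀ a : A, IsClopen {b | a ≤ b}) (m m' : (A × A) →₀ 𝕜) :
    RC τ hc (m + m') = RC τ hc m + RC τ hc m' := by
  unfold RC
  refine Finsupp.sum_add_index' (fun _ => ?_) (fun _ _ _ => ?_)
  · ext1 x; exact zero_smul 𝕜 _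
  · ext1 x; exact add_smul (R := 𝕜) _ _ _

theorem RC_smul (τ : TreeLev A) (hc : ∀ a : A, IsClopen {b | a ≤ b}) (c : 𝕜)
    (m : (A × A) →₀ 𝕜) : RC τ hc (c • m) = c • RC τ hc m := by
  unfold RC
  rw [Finsupp.sum_smul_index (fun _ => by ext1 x; exact zero_smul 𝕜 _), Finsupp.smul_sum]
  exact Finsupp.sum_congr (fun _ _ => by ext1 x; exact mul_smul (α := 𝕜) _ _ _)

theorem RC_compact (τ : TreeLev A) (hc : ∀ a : A, IsClopen {b | a ≤ b}) (m : (A × A) →₀ 𝕜) :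
    IsCompactOperator (RC τ hc m) := by
  have : RC τ hc m ∈ compOp 𝕜 C(A, 𝕜) := by
    unfold RC Finsupp.sum
    refine sum_mem (fun ab _ => SMulMemClass.smul_mem _ ?_)
    show IsCompactOperator _
    have h1 : IsCompactOperator (id : 𝕜 → 𝕜) :=
      (isCompactOperator_id_iff_finiteDimensional (𝕜 := 𝕜)).2 inferInstance
    exact (h1.comp_clm (dC 𝕜 τ ab.2)).clm_comp
      ((ContinuousLinearMap.id 𝕜 𝕜).smulRight (chi 𝕜 hc ab.1))
  exact this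

end

section
variable {𝕜 : Type*} [RCLike 𝕜] {A : Type*} [PartialOrder A] [TopologicalSpace A] [CompactSpace A]
  {Y : Type*} [NormedAddCommGroup Y] [NormedSpace 𝕜 Y] {τ : TreeLev A}

/-- the set of pairs of matrix operators -/
def SM (D : Dat 𝕜 Y τ) (hc : ∀ a : A, IsClopen {b | a ≤ b}) :
    Set ((D.X →L[𝕜] D.X) × (C(A, 𝕜) →L[𝕜] C(A, 𝕜))) :=
  Set.range (fun m : (A × A) →₀ 𝕜 => (D.RX m, RC τ hc m))

theorem SM_add (D : Dat 𝕜 Y τ) (hc : ∀ a : A, IsClopen {b | a ≤ b}) :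
    ∀ s ∈ SM D hc, ∀ t ∈ SM D hc, s + t ∈ SM D hc := by
  rintro _ ⟨m, rfl⟩ _ ⟨m', rfl⟩
  exact ⟨m + m', Prod.ext (RX_add D m m') (RC_add τ hc m m')⟩

theorem SM_smul (D : Dat 𝕜 Y τ) (hc : ∀ a : A, IsClopen {b | a ≤ b}) :
    ∀ s ∈ SM D hc, ∀ c : 𝕜, c • s ∈ SM D hc := by
  rintro _ ⟨m, rfl⟩ c
  exact ⟨c • m, Prod.ext (RX_smul D c m) (RC_smul τ hc c m)⟩

theorem SM_mul (D : Dat 𝕜 Y τ) (hc : ∀ a : A, IsClopen {b | a ≤ b}) :
    ∀ s ∈ SM D hc, ∀ t ∈ SM D hc, s * t ∈ SM D hc := by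
  rintro _ ⟨m, rfl⟩ _ ⟨m', rfl⟩
  exact ⟨mulM m m', Prod.ext (cal_mulx D (all_bio D) m m').symm (cal_mulc (𝕜 := 𝕜) τ hc m m').symm⟩

theorem SM_zero (D : Dat 𝕜 Y τ) (hc : ∀ a : A, IsClopen {b | a ≤ b}) : 0 ∈ SM D hc := by
  refine ⟨0, Prod.ext ?_ ?_⟩
  · show D.RX 0 = 0
    unfold Dat.RX
    exact Finsupp.sum_zero_index
  · show RC τ hc 0 = 0
    unfold RC
    exact Finsupp.sum_zero_index

theorem SM_comp (D : Dat 𝕜 Y τ) (hc : ∀ a : A, IsClopen {b | a ≤ b}) :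
    ∀ s ∈ SM D hc, IsCompactOperator s.2 := by
  rintro _ ⟨m, rfl⟩
  exact RC_compact τ hc m

theorem SM_up (D : Dat 𝕜 Y τ) (hc : ∀ a : A, IsClopen {b | a ≤ b}) :
    ∀ s ∈ SM D hc, ∃ K : D.X →L[𝕜] D.X, IsCompactOperator K ∧ ‖s.1 - K‖ ≤ 2 * ‖s.2‖ := by
  rintro _ ⟨m, rfl⟩
  exact all_upx D hc m

theorem SM_lo (D : Dat 𝕜 Y τ) (hc : ∀ a : A, IsClopen {b | a ≤ b}) (hY : GoodY 𝕜 Y) :
    ∀ s ∈ SM D hc, ∀ K : D.X →L[𝕜] D.X, IsCompactOperator K → ‖s.2‖ ≤ 2 * ‖s.1 - K‖ := by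
  rintro _ ⟨m, rfl⟩ K0 hK
  exact all_lox D hc hY m K0 hK

theorem SM_den (D : Dat 𝕜 Y τ) (hc : ∀ a : A, IsClopen {b | a ≤ b}) :
    ∀ T : C(A, 𝕜) →L[𝕜] C(A, 𝕜), IsCompactOperator T → ∀ e : ℝ, 0 < e →
      ∃ s ∈ SM D hc, ‖T - s.2‖ ≤ e := by
  intro T hT e he
  obtain ⟨m, hm⟩ := all_denc (𝕜 := 𝕜) τ hc T hT e he
  exact ⟨_, ⟨m, rfl⟩, hm⟩

theorem SM_app (D : Dat 𝕜 Y τ) (hc : ∀ a : A, IsClopen {b | a ≤ b})
    (h : ∀ T : D.X →L[𝕜] D.X, ∃ c : 𝕜, ∀ e : ℝ, 0 < e → ∃ (m : (A × A) →₀ 𝕜)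
      (K : D.X →L[𝕜] D.X), IsCompactOperator K ∧
        ‖T - c • ContinuousLinearMap.id 𝕜 D.X - D.RX m - K‖ ≤ e) :
    ∀ T : D.X →L[𝕜] D.X, ∃ c : 𝕜, ∀ e : ℝ, 0 < e → ∃ s ∈ SM D hc, ∃ K : D.X →L[𝕜] D.X,
      IsCompactOperator K ∧ ‖T - c • ContinuousLinearMap.id 𝕜 D.X - s.1 - K‖ ≤ e := by
  intro T
  obtain ⟨c, h⟩ := h T
  refine ⟨c, fun e he => ?_⟩
  obtain ⟨m, K0, hK, hm⟩ := h e he
  exact ⟨_, ⟨m, rfl⟩, K0, hK, hm⟩

theorem SM_ch (D : Dat 𝕜 Y τ) (hc : ∀ a : A, IsClopen {b | a ≤ b}) (c0 : ℝ)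
    (hch : ∀ (c : 𝕜) (m : (A × A) →₀ 𝕜) (K : D.X →L[𝕜] D.X), IsCompactOperator K →
      c0 * ‖c‖ ≤ ‖c • ContinuousLinearMap.id 𝕜 D.X + D.RX m + K‖) :
    ∀ (c : 𝕜), ∀ s ∈ SM D hc, ∀ K : D.X →L[𝕜] D.X, IsCompactOperator K →
      c0 * ‖c‖ ≤ ‖c • ContinuousLinearMap.id 𝕜 D.X + s.1 + K‖ := by
  rintro c _ ⟨m, rfl⟩ K0 hK
  exact hch c m K0 hK

end

theorem glue {𝕜 : Type} [RCLike 𝕜] {A : Type u} [PartialOrder A] [TopologicalSpace A]
    [CompactSpace A] {Y : Type v} [NormedAddCommGroup Y] [NormedSpace 𝕜 Y] [CompleteSpace Y]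
    {τ : TreeLev A} (D : Dat 𝕜 Y τ) (hc : ∀ a : A, IsClopen {b | a ≤ b}) (hY : GoodY 𝕜 Y)
    (c0 : ℝ) (hc0 : 0 < c0)
    (hch : ∀ (c : 𝕜) (m : (A × A) →₀ 𝕜) (K : D.X →L[𝕜] D.X), IsCompactOperator K →
      c0 * ‖c‖ ≤ ‖c • ContinuousLinearMap.id 𝕜 D.X + D.RX m + K‖)
    (happ : ∀ T : D.X →L[𝕜] D.X, ∃ c : 𝕜, ∀ e : ℝ, 0 < e → ∃ (m : (A × A) →₀ 𝕜)
      (K : D.X →L[𝕜] D.X), IsCompactOperator K ∧
        ‖T - c • ContinuousLinearMap.id 𝕜 D.X - D.RX m - K‖ ≤ e) :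
    ∃ (X : Type (max u v)) (_ : NormedAddCommGroup X) (_ : NormedSpace 𝕜 X) (_ : CompleteSpace X)
      (Ψ : (X →L[𝕜] X) →ₐ[𝕜] Unitization 𝕜 (compOp 𝕜 C(A, 𝕜))) (C : ℝ),
      Function.Surjective Ψ ∧ (∀ T, Ψ T = 0 ↔ IsCompactOperator T) ∧
      (∀ T, ‖(Ψ T).fst‖ + ‖((Ψ T).snd : C(A, 𝕜) →L[𝕜] C(A, 𝕜))‖ ≤ C * ‖T‖) ∧
      (∀ T, ∃ T0 : X →L[𝕜] X, IsCompactOperator T0 ∧
        ‖T - T0‖ ≤ C * (‖(Ψ T).fst‖ + ‖((Ψ T).snd : C(A, 𝕜) →L[𝕜] C(A, 𝕜))‖)) := by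
  obtain ⟨Ψ, C, h1, h2, h3, h4⟩ := all_abs 𝕜 D.X C(A, 𝕜) (SM D hc) c0 ⟨hc0, SM_add D hc,
    SM_smul D hc, SM_mul D hc, SM_zero D hc, SM_comp D hc, SM_up D hc, SM_lo D hc hY,
    SM_den D hc, SM_app D hc happ, SM_ch D hc c0 hch⟩
  exact ⟨D.X, inferInstance, inferInstance, inferInstance, Ψ, C, h1, h2, h3, h4⟩

theorem cal_fin (𝕜 : Type) [RCLike 𝕜] : CALStmt.{u} 𝕜 := by
  intro K _ _ _ _
  obtain ⟨_, τ, hc⟩ := all_tree K
  obtain ⟨hH, hW⟩ := cal_chain K τ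
  obtain ⟨F⟩ := all_fam τ.Chain hH hW
  obtain ⟨w0, w, hdis⟩ := exists_wts
  -- the Argyros-Haydon space
  have hsep : TopologicalSpace.SeparableSpace (𝕜 →L[𝕜] 𝕜) := inferInstance
  have hch0 : ∀ G, tau0.Chain G → τ.Chain G := by
    rintro G (h | ⟨a, -⟩)
    · exact Or.inl h
    · exact a.elim
  obtain ⟨D0, ⟨R0⟩⟩ := all_richex (𝕜 := 𝕜) tau0 𝕜 hsep F w0 hch0
  have hY : GoodY 𝕜 D0.X :=
    ⟨inferInstance, all_hsc D0 inferInstance F w0 R0, all_hwn D0 F w0 R0⟩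
  obtain ⟨D, ⟨R⟩⟩ := all_richex (𝕜 := 𝕜) τ D0.X (all_hsep D0 inferInstance F w0 R0) F w
    (fun G h => h)
  have hPT : D.PT := all_ept D F w R (all_enull D D0 inferInstance F w w0 R R0 hdis.symm)
  have hCO : D.CO := all_eco D0 D inferInstance F w0 w R0 R hdis
  obtain ⟨c0, hc0, hch⟩ := all_ech D F w R
  have hcompl : CompleteSpace D0.X := hY.compl
  exact glue D hc hY c0 hc0 hch (all_eapp D F w R hPT hY hCO)

end CAL
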