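import Pool.Agent.H27.CAL.Stmts2

/-! Project CAL, modules UNSP and GAP -/

open scoped BigOperators ENNReal Topology
open Filter

namespace CAL

variable {𝕜 : Type*} [RCLike 𝕜] {A : Type*} [PartialOrder A] {Y : Type*} [NormedAddCommGroup Y]
  [NormedSpace 𝕜 Y] {τ : TreeLev A}

theorem cal_unsp (D : Dat 𝕜 Y τ) (hran : RANStmt D) (hanc : ANCStmt D) : UNSPStmt D := by
  intro ζ γ s t x hA hx ht hp
  obtain ⟨h1, -, -, h4, -, -, -, -, -⟩ := hran
  induction hA with
  | refl =>
    rcases hpr : D.pred ζ with _ | ξ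
    · have h := D.co_PX_none x ht hpr
      rwa [hx.2] at h
    · have h := D.co_PX_some x ht hpr
      have hξ := hp ξ hpr
      rw [hx.2, h1 s t x hx ξ hξ, h4 s t x _ hx ((min_le_right t (D.lev ξ)).trans hξ), map_zero,
        sub_zero, zero_add] at h
      exact h
  | step hpr hA' ih =>
    rename_i ζ' γ
    have hle := (hanc.1 _ _ hA').1
    have hlt : t < D.lev ζ' := ht.trans_le hle
    have h := D.co_PX_some x (hlt.trans (D.pred_lev _ _ hpr)) hpr
    rw [min_eq_left hlt.le, hx.2, sub_self, mul_zero, add_zero] at h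
    rw [h, ih, D.pred_wt _ _ hpr]

theorem cal_gap (D : Dat 𝕜 Y τ) (hran : RANStmt D) (hanc : ANCStmt D) (hunsp : UNSPStmt D) :
    GAPStmt D := by
  classical
  intro γ c
  obtain ⟨h1, -, -, -, -, -, -, -, -⟩ := hran
  obtain ⟨ha1, ha2, ha3, ha4⟩ := hanc
  by_cases hex : ∃ p ∈ D.Lv γ, ((D.Lv γ).filter (· < p)).card = c
  · obtain ⟨p, hp, hc⟩ := hex
    obtain ⟨ζ, hζ, hlev⟩ := ha2 γ p hp
    refine ⟨D.b ζ, Or.inr ⟨ζ, hζ, rfl⟩, ?_⟩
    intro s t x hst hx hs ht
    have htp : t < p := by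
      by_contra hge
      rw [not_lt] at hge
      have hsub : insert p ((D.Lv γ).filter (· < p)) ⊆ (D.Lv γ).filter (· ≤ t) := by
        intro q hq
        rw [Finset.mem_insert, Finset.mem_filter] at hq
        rw [Finset.mem_filter]
        rcases hq with rfl | ⟨hq1, hq2⟩
        · exact ⟨hp, hge⟩
        · exact ⟨hq1, by omega⟩
      have h2 := Finset.card_le_card hsub
      rw [Finset.card_insert_of_notMem (by simp), hc] at h2
      unfold cnt at ht
      omega
    apply hunsp ζ γ s t x hζ hx (by rw [hlev]; exact htp)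
    intro ξ hξ
    by_contra hlt
    rw [not_le] at hlt
    have hξl : D.lev ξ ∈ D.Lv γ := (ha1 ξ γ (ha3 ξ ζ γ (Dat.Anc.step hξ (Dat.Anc.refl ξ)) hζ)).2.2.1
    have hξp : D.lev ξ < p := by rw [← hlev]; exact D.pred_lev _ _ hξ
    have hsub : (D.Lv γ).filter (· ≤ s) ⊆ ((D.Lv γ).filter (· < p)).erase (D.lev ξ) := by
      intro q hq
      rw [Finset.mem_filter] at hq
      rw [Finset.mem_erase, Finset.mem_filter]
      exact ⟨by omega, hq.1, by omega⟩
    have h2 := Finset.card_le_card hsub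
    rw [Finset.card_erase_of_mem (Finset.mem_filter.2 ⟨hξl, hξp⟩), hc] at h2
    have h3 : 0 < ((D.Lv γ).filter (· < p)).card :=
      Finset.card_pos.2 ⟨D.lev ξ, Finset.mem_filter.2 ⟨hξl, hξp⟩⟩
    unfold cnt at hs
    omega
  · refine ⟨0, Or.inl rfl, ?_⟩
    intro s t x hst hx hs ht
    have hlev : D.lev γ ≤ s := by
      by_contra hlt
      rw [not_le] at hlt
      apply hex
      have hne : ((D.Lv γ).filter (s < ·)).Nonempty :=
        ⟨D.lev γ, Finset.mem_filter.2 ⟨(ha1 γ γ (Dat.Anc.refl γ)).2.2.1, hlt⟩⟩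
      refine ⟨((D.Lv γ).filter (s < ·)).min' hne,
        (Finset.mem_filter.1 (Finset.min'_mem _ hne)).1, ?_⟩
      rw [← hs]
      unfold cnt
      congr 1
      ext q
      rw [Finset.mem_filter, Finset.mem_filter]
      have hmin := (Finset.mem_filter.1 (Finset.min'_mem _ hne)).2
      constructor
      · rintro ⟨hq1, hq2⟩
        refine ⟨hq1, ?_⟩
        by_contra hq3
        have h5 : ((D.Lv γ).filter (s < ·)).min' hne ≤ q :=
          Finset.min'_le _ q (Finset.mem_filter.2 ⟨hq1, not_le.1 hq3⟩)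
        exact absurd hq2 (not_lt.2 h5)
      · rintro ⟨hq1, hq2⟩
        exact ⟨hq1, by omega⟩
    rw [h1 s t x hx γ hlev, D.evX_apply]
    simp [ev]

end CAL
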